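import Pool.Agent.CP72.Main
import Pool.Agent.CR53.Main

/-! In Cramer's random model of the primes, almost surely, the number of the integers `0 < k < n` such that
`p = k + el (n - k)` and `el p + p + 1` are both in the random set is asymptotically `n / (log n)^2`. -/

set_option autoImplicit false

namespace Pool.Agent.Results.MP_83c1c9_nt.CramerModelTwo

open MeasureTheory Filter Topology Pool.Agent.CR53 Pool.Agent.CP69

theorem result : ∀ᵐ ω ∂(Measure.infinitePi coin),
    Tendsto (fun n : ℕ => (num2 {m : ℕ | ω m = true} n : ℝ) * Real.log n ^ 2 / n) atTop (𝓝 1) := by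
  obtain ⟨h1, h2, h3⟩ := model_facts
  filter_upwards [Pool.Agent.CP72.main72 (μ := Measure.infinitePi coin)
    (E := fun m : ℕ => {ω : ℕ → Bool | ω m = true}) h1 h2 h3] with ω h
  exact h.2

end Pool.Agent.Results.MP_83c1c9_nt.CramerModelTwo
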